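import Pool.Agent.K3h64.E8.Core8a
import Pool.Agent.K3h17.UG6.Gds
import Pool.Agent.K3h92.UG.Root4
import Pool.Agent.K3h51.UG.Sol4
import Pool.Agent.K3h51.UG.Rp
import Pool.Agent.K3h51.UG.PigChain
import Pool.Agent.K3h55.UG.Comp
import Pool.Agent.K3h33.UG.Newt
import Pool.Agent.K3h58.UG.Cls3
import Pool.Agent.K3h60.EX.LogBC

/-! E8 project: `S_CORE8`. -/

set_option autoImplicit false

namespace Pool.Agent.K3h64.E8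

open MvPolynomial Filter Topology Metric Set Pool.Agent.K3h22.EX Pool.Agent.K3h53.UG
  Pool.Agent.K3h22.E8

theorem t_CORE8 : S_CORE8 := by
  intro n s r e Zp I ω hω q hGEO A _ Φ c f U W D Δ G0 N g hf hf0 hUW hD hΔ hG0 hg0 hgN m hm hqE
    qq hqq hk
  obtain ⟨k₁, hk₁, k₂, hk₂, hk, a₁, ha₁, a₂, ha₂, heq, hle⟩ := hk
  exact core8 Pool.Agent.K3h17.UG6.t_DOM6 t_ROOT4
    (Pool.Agent.K3h17.UG6.t_SOL6 (Pool.Agent.K3h51.UG.t_SOL4 Pool.Agent.K3h60.EX.t_BC))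
    Pool.Agent.K3h58.UG.t_CLS3 Pool.Agent.K3h51.UG.t_RP Pool.Agent.K3h51.UG.t_PIG
    Pool.Agent.K3h55.UG.t_COMP Pool.Agent.K3h33.UG.t_NEWT e Zp I ω hω q hGEO Φ c f U W D Δ G0 N g
    hf hf0 hUW hD hΔ hG0 hg0 hgN m hm hqE qq hqq k₁ k₂ hk₁ hk₂ hk a₁ a₂ ha₁ ha₂ heq hle

end Pool.Agent.K3h64.E8
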